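import Pool.Agent.Q185.SphH.Dens

set_option autoImplicit false
set_option linter.unusedSimpArgs false

/-! # Even zero-homogeneous eigenfunctions with small eigenvalue -/

namespace Pool.Agent.Q185.SphH

open Pool.Agent.Q185.DV
open scoped ContDiff RealInnerProductSpace
open MeasureTheory

variable {N : ℕ}

/-- The functions `x_i x_j / ‖x‖²`. -/
noncomputable def Q (i j : Fin N) : Sm (U0 N) := ell (sb i) * ell (sb j) * rho ^ 2

theorem G_two (a : E N) : G a 2 = ∑ i : Fin N, ∑ j : Fin N, cst (a i * a j) * Q i j := by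
  have h : G a 2 = (∑ i : Fin N, cst (a i) * ell (sb i)) * (∑ j : Fin N, cst (a j) * ell (sb j)) *
      rho ^ 2 := by
    rw [sum_sb_ell]
    unfold G
    ring
  rw [h, Finset.sum_mul_sum, Finset.sum_mul]
  refine Finset.sum_congr rfl fun i _ => ?_
  rw [Finset.sum_mul]
  refine Finset.sum_congr rfl fun j _ => ?_
  unfold Q
  simp only [cst, map_mul]
  ring

theorem sum_Q : ∑ i : Fin N, Q i i = (1 : Sm (U0 N)) := by
  rw [← r2_rho]
  unfold Q r2
  rw [Finset.sum_mul]

theorem moments_even {F : Sm (U0 N)} {nu : ℝ} (h : Eig F nu) (k0 : ℕ)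
    (h0 : ∀ a, T hwt (F * G a (2 * k0)) = 0)
    (hne : ∀ k, k0 ≤ k → (2 * (k : ℝ) + 2) * (2 * k + N) - nu ≠ 0) (k : ℕ) (hk : k0 ≤ k)
    (a : E N) : T hwt (F * G a (2 * k)) = 0 := by
  induction k, hk using Nat.le_induction with
  | base => exact h0 a
  | succ k hk ih =>
    have h1 := moment_step h a (2 * k)
    rw [ih, mul_zero] at h1
    push_cast at h1
    exact (mul_eq_zero.mp h1).resolve_left (hne k hk)

theorem moments_all {F : Sm (U0 N)} (he : ∀ x, ext (U0 N) F.1 (-x) = ext (U0 N) F.1 x)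
    (h : ∀ a k, T hwt (F * G a (2 * k)) = 0) (a : E N) (m : ℕ) : T hwt (F * G a m) = 0 := by
  rcases Nat.even_or_odd' m with ⟨k, rfl | rfl⟩
  · exact h a k
  · exact moment_odd he a k

/-- Vanishing of eigenfunctions with small eigenvalues and vanishing low moments. -/
theorem main_zero (hN : 1 ≤ N) {F : Sm (U0 N)} {nu : ℝ} (h : Eig F nu)
    (hom : ∀ (c : ℝ) (x : E N), 0 < c → ext (U0 N) F.1 (c • x) = ext (U0 N) F.1 x)
    (he : ∀ x, ext (U0 N) F.1 (-x) = ext (U0 N) F.1 x)
    (hnu : nu < 4 * ((N : ℝ) + 2)) (h0 : nu = 0 → T hwt F = 0)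
    (h1 : nu = 2 * N → ∀ i j, T hwt (F * Q i j) = 0) : F = 0 := by
  apply eq_zero_of_moments hom
  apply moments_all he
  have hN' : (1 : ℝ) ≤ N := by exact_mod_cast hN
  have hT0 : T hwt F = 0 := by
    by_cases hz : nu = 0
    · exact h0 hz
    · exact (mul_eq_zero.mp (moment_zero h)).resolve_left hz
  have hG0 : ∀ a : E N, T hwt (F * G a (2 * 0)) = 0 := by
    intro a
    unfold G
    simpa using hT0
  have hlarge : ∀ k : ℕ, 1 ≤ k → (2 * (k : ℝ) + 2) * (2 * k + N) - nu ≠ 0 := by
    intro k hk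
    have hk' : (1 : ℝ) ≤ k := by exact_mod_cast hk
    have : 4 * ((N : ℝ) + 2) ≤ (2 * (k : ℝ) + 2) * (2 * k + N) := by nlinarith
    intro h2
    linarith
  intro a k
  by_cases hz : nu = 2 * N
  · -- the eigenvalue of the quadratic forms
    have hG2 : ∀ a : E N, T hwt (F * G a (2 * 1)) = 0 := by
      intro a
      rw [show 2 * 1 = 2 from rfl, G_two, Finset.mul_sum, map_sum]
      refine Finset.sum_eq_zero fun i _ => ?_
      rw [Finset.mul_sum, map_sum]
      refine Finset.sum_eq_zero fun j _ => ?_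
      have e : F * (cst (a i * a j) * Q i j) = (a i * a j) • (F * Q i j) := by
        rw [← cst_mul_eq]
        ring
      rw [e, map_smul, h1 hz i j, smul_zero]
    rcases Nat.eq_zero_or_pos k with rfl | hk
    · exact hG0 a
    · exact moments_even h 1 hG2 hlarge k hk a
  · refine moments_even h 0 hG0 (fun k _ => ?_) k (Nat.zero_le k) a
    rcases Nat.eq_zero_or_pos k with rfl | hk
    · intro h2
      apply hz
      push_cast at h2
      linarith
    · exact hlarge k hk

end Pool.Agent.Q185.SphH
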