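import Pool.Agent.Q185.DV.Ring

set_option autoImplicit false
set_option linter.unusedSimpArgs false

/-! # Zero-homogeneous functions on `ℝ^N ∖ 0`: the Laplacian of powers of linear forms -/

namespace Pool.Agent.Q185.SphH

open Pool.Agent.Q185.DV
open scoped ContDiff RealInnerProductSpace

/-- Euclidean space. -/
abbrev E (n : ℕ) := EuclideanSpace ℝ (Fin n)

variable {N : ℕ}

variable (N) in
/-- The punctured space. -/
def U0 : TopologicalSpace.Opens (E N) := ⟨{0}ᶜ, isOpen_compl_singleton⟩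

theorem mem_U0 {x : E N} : x ∈ U0 N ↔ x ≠ 0 := Iff.rfl

theorem ne0 (q : U0 N) : q.1 ≠ 0 := q.2

/-- The linear form `⟪a, ·⟫`. -/
noncomputable def ell (a : E N) : Sm (U0 N) := lin (innerSL ℝ a)

theorem ell_apply (a : E N) (q : U0 N) : (ell a).1 q = ⟪a, q.1⟫ := rfl

theorem D_ell (v a : E N) : D v (ell a) = algebraMap ℝ (Sm (U0 N)) ⟪a, v⟫ := D_lin v _

theorem rho_smooth : ContDiffOn ℝ ∞ (fun x : E N => ‖x‖⁻¹) (U0 N) := by
  intro x hx
  exact ((contDiffAt_norm ℝ (show x ≠ 0 from hx)).inv (norm_ne_zero_iff.mpr hx)).contDiffWithinAt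

/-- The inverse of the norm. -/
noncomputable def rho : Sm (U0 N) := res (fun x => ‖x‖⁻¹) rho_smooth

theorem rho_apply (q : U0 N) : (rho : Sm (U0 N)).1 q = ‖q.1‖⁻¹ := rfl

theorem D_rho (v : E N) : D v (rho : Sm (U0 N)) = -(ell v * rho ^ 3) := by
  apply Sm_ext
  intro q
  have h0 : (D v (rho : Sm (U0 N))).1 q = fderiv ℝ (fun x : E N => ‖x‖⁻¹) q v := D_res v _ _ q
  rw [h0]
  have hq : q.1 ≠ 0 := ne0 q
  have hn : ‖q.1‖ ≠ 0 := norm_ne_zero_iff.mpr hq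
  have h1 : HasFDerivAt (fun x : E N => ‖x‖ ^ 2) (2 • (innerSL ℝ q.1)) q.1 :=
    (hasStrictFDerivAt_norm_sq q.1).hasFDerivAt
  have h2 : HasFDerivAt (fun x : E N => ‖x‖) (fderiv ℝ (fun x : E N => ‖x‖) q.1) q.1 :=
    ((contDiffAt_norm ℝ hq).differentiableAt (n := 1) (by simp)).hasFDerivAt
  have h3 := (h2.pow 2).unique h1
  have h4 := congrArg (fun L : E N →L[ℝ] ℝ => L v) h3
  simp only [smul_apply, nsmul_eq_mul, smul_eq_mul, innerSL_apply_apply] at h4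
  have h5 : fderiv ℝ (fun x : E N => ‖x‖⁻¹) q.1 =
      (-(‖q.1‖ ^ 2)⁻¹) • fderiv ℝ (fun x : E N => ‖x‖) q.1 :=
    ((hasDerivAt_inv hn).comp_hasFDerivAt q.1 h2).fderiv
  have h6 : fderiv ℝ (fun x : E N => ‖x‖⁻¹) q.1 v =
      -(‖q.1‖ ^ 2)⁻¹ * fderiv ℝ (fun x : E N => ‖x‖) q.1 v := by
    rw [h5]
    rfl
  rw [h6]
  change _ = -(⟪v, q.1⟫ * (‖q.1‖⁻¹) ^ 3)
  rw [real_inner_comm]
  push_cast at h4
  have h7 : ‖q.1‖ * fderiv ℝ (fun x : E N => ‖x‖) q.1 v = ⟪q.1, v⟫ := by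
    have : (2 : ℝ) * (‖q.1‖ * fderiv ℝ (fun x : E N => ‖x‖) q.1 v) = 2 * ⟪q.1, v⟫ := by
      rw [← h4]; simp; ring
    linarith
  rw [← h7]
  field_simp

/-- The standard basis. -/
noncomputable def sb (k : Fin N) : E N := EuclideanSpace.single k (1 : ℝ)

theorem inner_sb (a : E N) (k : Fin N) : ⟪a, sb k⟫ = a k := by
  unfold sb
  rw [EuclideanSpace.inner_single_right]
  simp

/-- The square of the norm. -/
noncomputable def r2 : Sm (U0 N) := ∑ k : Fin N, ell (sb k) * ell (sb k)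

theorem sm_sum_apply {ι : Type*} (s : Finset ι) (f : ι → Sm (U0 N)) (q : U0 N) :
    (∑ i ∈ s, f i).1 q = ∑ i ∈ s, (f i).1 q := by
  have h : (∑ i ∈ s, f i).1 = ∑ i ∈ s, (f i).1 := by
    exact AddSubmonoidClass.coe_finsetSum f s
  rw [h, Finset.sum_apply]

theorem r2_apply (q : U0 N) : (r2 : Sm (U0 N)).1 q = ‖q.1‖ ^ 2 := by
  unfold r2
  rw [sm_sum_apply, EuclideanSpace.norm_sq_eq]
  refine Finset.sum_congr rfl fun k _ => ?_
  change ⟪sb k, q.1⟫ * ⟪sb k, q.1⟫ = _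
  rw [real_inner_comm, inner_sb, Real.norm_eq_abs, sq_abs, sq]

theorem r2_rho : (r2 : Sm (U0 N)) * rho ^ 2 = 1 := by
  apply Sm_ext
  intro q
  have h : (r2 * rho ^ 2 : Sm (U0 N)).1 q = (r2 : Sm (U0 N)).1 q * ((rho : Sm (U0 N)).1 q) ^ 2 := rfl
  rw [h, r2_apply, rho_apply]
  have hn : ‖q.1‖ ≠ 0 := norm_ne_zero_iff.mpr (ne0 q)
  change _ = (1 : ℝ)
  field_simp

/-- The Laplacian. -/
noncomputable def Lap (f : Sm (U0 N)) : Sm (U0 N) := ∑ k : Fin N, D (sb k) (D (sb k) f)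

/-- The Euler field. -/
noncomputable def Eu (f : Sm (U0 N)) : Sm (U0 N) := ∑ k : Fin N, ell (sb k) * D (sb k) f

/-- Constants. -/
noncomputable abbrev cst (r : ℝ) : Sm (U0 N) := algebraMap ℝ (Sm (U0 N)) r

theorem sum_sb_ell (a : E N) : ∑ k : Fin N, cst (a k) * ell (sb k) = ell a := by
  apply Sm_ext
  intro q
  rw [sm_sum_apply, ell_apply, PiLp.inner_apply]
  refine Finset.sum_congr rfl fun k _ => ?_
  change a k * ⟪sb k, q.1⟫ = _
  rw [real_inner_comm, inner_sb]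
  simp [mul_comm]

theorem sum_sq (a : E N) : ∑ k : Fin N, cst (a k) * cst (a k) = (cst (‖a‖ ^ 2) : Sm (U0 N)) := by
  rw [EuclideanSpace.norm_sq_eq]
  have h := map_sum (algebraMap ℝ (Sm (U0 N))) (fun i => ‖a i‖ ^ 2) Finset.univ
  change _ = algebraMap ℝ (Sm (U0 N)) _
  rw [h]
  refine Finset.sum_congr rfl fun k _ => ?_
  rw [Real.norm_eq_abs, sq_abs, sq, map_mul]

theorem Eu_ell (a : E N) : Eu (ell a) = ell a := by
  unfold Eu
  rw [← sum_sb_ell a]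
  refine Finset.sum_congr rfl fun k _ => ?_
  rw [sum_sb_ell, D_ell, inner_sb, mul_comm]

theorem Eu_rho : Eu (rho : Sm (U0 N)) = -rho := by
  unfold Eu
  have h : ∀ k : Fin N, ell (sb k) * D (sb k) (rho : Sm (U0 N)) =
      -(rho ^ 3) * (ell (sb k) * ell (sb k)) := by
    intro k
    rw [D_rho]
    ring
  simp only [h]
  rw [← Finset.mul_sum]
  change -(rho ^ 3) * r2 = _
  linear_combination -rho * r2_rho

/-- The functions `(⟪a, x⟫ / ‖x‖) ^ m`. -/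
noncomputable def G (a : E N) (m : ℕ) : Sm (U0 N) := ell a ^ m * rho ^ m

theorem G_apply (a : E N) (m : ℕ) (q : U0 N) : (G a m).1 q = (⟪a, q.1⟫ * ‖q.1‖⁻¹) ^ m := by
  rw [mul_pow]
  rfl

theorem Eu_mul (f g : Sm (U0 N)) : Eu (f * g) = Eu f * g + f * Eu g := by
  unfold Eu
  simp only [D_mul, mul_add, Finset.sum_add_distrib, Finset.sum_mul, Finset.mul_sum]
  congr 1
  · refine Finset.sum_congr rfl fun k _ => ?_
    ring
  · refine Finset.sum_congr rfl fun k _ => ?_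
    ring

theorem Eu_pow (f : Sm (U0 N)) (m : ℕ) : Eu (f ^ m) = m * f ^ (m - 1) * Eu f := by
  unfold Eu
  simp only [D_pow, Finset.mul_sum]
  refine Finset.sum_congr rfl fun k _ => ?_
  ring

theorem Eu_G (a : E N) (m : ℕ) : Eu (G a m) = 0 := by
  unfold G
  rw [Eu_mul, Eu_pow, Eu_pow, Eu_ell, Eu_rho]
  cases m with
  | zero => simp
  | succ m =>
    rw [Nat.add_sub_cancel]
    push_cast
    ring

theorem cst_natCast (m : ℕ) : (cst (m : ℝ) : Sm (U0 N)) = (m : Sm (U0 N)) := by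
  exact map_natCast (algebraMap ℝ (Sm (U0 N))) m

theorem Lap_G (a : E N) (m : ℕ) : r2 * Lap (G a (m + 2)) =
    (((m : Sm (U0 N)) + 2) * ((m : Sm (U0 N)) + 1)) * cst (‖a‖ ^ 2) * G a m -
      ((m : Sm (U0 N)) + 2) * ((m : Sm (U0 N)) + (N : Sm (U0 N))) * G a (m + 2) := by
  have h : ∀ k : Fin N, D (sb k) (D (sb k) (G a (m + 2))) =
      ((m : Sm (U0 N)) + 2) * ((m : Sm (U0 N)) + 1) * (ell a ^ m * rho ^ (m + 2)) *
        (cst (a k) * cst (a k)) -
      2 * ((m : Sm (U0 N)) + 2) ^ 2 * (ell a ^ (m + 1) * rho ^ (m + 4)) *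
        (cst (a k) * ell (sb k)) +
      ((m : Sm (U0 N)) + 2) * ((m : Sm (U0 N)) + 4) * (ell a ^ (m + 2) * rho ^ (m + 6)) *
        (ell (sb k) * ell (sb k)) -
      ((m : Sm (U0 N)) + 2) * (ell a ^ (m + 2) * rho ^ (m + 4)) := by
    intro k
    have h1 : D (sb k) (G a (m + 2)) = ((m : Sm (U0 N)) + 2) * (ell a ^ (m + 1) * rho ^ (m + 2)) *
        cst (a k) - ((m : Sm (U0 N)) + 2) * (ell a ^ (m + 2) * rho ^ (m + 4)) * ell (sb k) := by
      unfold G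
      rw [D_mul, D_pow, D_pow, D_ell, D_rho, inner_sb]
      have e1 : m + 2 - 1 = m + 1 := rfl
      rw [e1]
      push_cast
      ring
    have hk : ⟪sb k, sb k⟫ = (1 : ℝ) := by
      rw [inner_sb]
      simp [sb]
    rw [h1]
    simp only [D_sub, D_mul, D_add, D_natCast, D_ofNat, D_pow, D_ell, D_rho, D_algebraMap,
      inner_sb, hk, mul_zero, zero_mul, add_zero, zero_add]
    have e1 : m + 1 - 1 = m := rfl
    have e2 : m + 2 - 1 = m + 1 := rfl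
    have e3 : m + 4 - 1 = m + 3 := rfl
    have e4 : (sb k : E N) k = 1 := by simp [sb]
    rw [e1, e2, e3, map_one]
    push_cast
    ring
  unfold Lap
  simp only [h, Finset.sum_sub_distrib, Finset.sum_add_distrib, ← Finset.mul_sum]
  rw [sum_sq, sum_sb_ell, Finset.sum_const, Finset.card_univ, Fintype.card_fin]
  change r2 * (_ - _ + _ * r2 - _) = _
  unfold G
  rw [nsmul_eq_mul]
  have e := r2_rho (N := N)
  linear_combination ((m : Sm (U0 N)) + 2) * ((m : Sm (U0 N)) + 1) * (ell a ^ m * rho ^ m) *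
      cst (‖a‖ ^ 2) * e +
    (-(2 * ((m : Sm (U0 N)) + 2) ^ 2) * (ell a ^ (m + 2) * rho ^ (m + 2)) +
      ((m : Sm (U0 N)) + 2) * ((m : Sm (U0 N)) + 4) * (ell a ^ (m + 2) * rho ^ (m + 2)) *
        (r2 * rho ^ 2 + 1) -
      ((m : Sm (U0 N)) + 2) * (N : Sm (U0 N)) * (ell a ^ (m + 2) * rho ^ (m + 2))) * e

end Pool.Agent.Q185.SphH
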