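import Pool.Agent.Q185.SphH.Rec

set_option autoImplicit false
set_option linter.unusedSimpArgs false

/-! # A zero-homogeneous function with vanishing moments vanishes -/

namespace Pool.Agent.Q185.SphH

open Pool.Agent.Q185.DV
open scoped ContDiff RealInnerProductSpace
open MeasureTheory

variable {N : ℕ}

/-- The unit sphere. -/
abbrev Sp (N : ℕ) := Metric.sphere (0 : E N) 1

theorem nrm_mem {x : E N} (hx : x ≠ 0) : ‖x‖⁻¹ • x ∈ Metric.sphere (0 : E N) 1 := by
  rw [mem_sphere_zero_iff_norm, norm_smul, norm_inv, norm_norm,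
    inv_mul_cancel₀ (norm_ne_zero_iff.mpr hx)]

/-- The zero-homogeneous extension. -/
noncomputable def hx (φ : C(Sp N, ℝ)) (x : E N) : ℝ :=
  open Classical in if h : x ≠ 0 then φ ⟨‖x‖⁻¹ • x, nrm_mem h⟩ else 0

theorem hx_of_ne (φ : C(Sp N, ℝ)) {x : E N} (h : x ≠ 0) :
    hx φ x = φ ⟨‖x‖⁻¹ • x, nrm_mem h⟩ := dif_pos h

theorem hx_continuousOn (φ : C(Sp N, ℝ)) : ContinuousOn (hx φ) {0}ᶜ := by
  rw [continuousOn_iff_continuous_domRestrict]
  have h : Set.domRestrict {0}ᶜ (hx φ) = fun x : ({0}ᶜ : Set (E N)) =>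
      φ ⟨‖x.1‖⁻¹ • x.1, nrm_mem x.2⟩ := by
    funext x
    exact hx_of_ne φ x.2
  rw [h]
  refine φ.continuous.comp (Continuous.subtype_mk ?_ _)
  exact (continuous_subtype_val.norm.inv₀ fun x => norm_ne_zero_iff.mpr x.2).smul
    continuous_subtype_val

theorem hx_bound (φ : C(Sp N, ℝ)) (x : E N) : |hx φ x| ≤ ‖φ‖ := by
  by_cases h : x ≠ 0
  · rw [hx_of_ne φ h]
    exact φ.norm_coe_le_norm _
  · unfold hx
    rw [dif_neg h, abs_zero]
    exact norm_nonneg _

theorem wt_zero {x : E N} (hx : x ∉ tsupport (wt : E N → ℝ)) : wt x = 0 := by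
  by_contra h
  exact hx (subset_tsupport wt h)

/-- The integrand. -/
noncomputable def igr (F : Sm (U0 N)) (φ : C(Sp N, ℝ)) (x : E N) : ℝ :=
  hx φ x * ext (U0 N) (F * res wt hwt.on).1 x

theorem igr_integrable (F : Sm (U0 N)) (φ : C(Sp N, ℝ)) : Integrable (igr F φ) := by
  have hc : Continuous (igr F φ) := by
    rw [continuous_iff_continuousAt]
    intro x
    by_cases h : x ≠ 0
    · have h1 : ContinuousAt (hx φ) x :=
        (hx_continuousOn φ).continuousAt (isOpen_compl_singleton.mem_nhds h)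
      exact h1.mul (contDiff_mul F hwt).continuous.continuousAt
    · push Not at h
      subst h
      have h1 : igr F φ =ᶠ[nhds 0] fun _ => 0 := by
        filter_upwards [(isClosed_tsupport wt).isOpen_compl.mem_nhds hwt.away] with y hy
        unfold igr
        rw [ext_zero_of F hwt hy, mul_zero]
      exact continuousAt_const.congr h1.symm
  refine hc.integrable_of_hasCompactSupport ?_
  refine HasCompactSupport.intro (K := tsupport wt) hwt.supp fun x hx => ?_
  unfold igr
  rw [ext_zero_of F hwt hx, mul_zero]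

/-- The functional on continuous functions on the sphere. -/
noncomputable def P (F : Sm (U0 N)) : C(Sp N, ℝ) →L[ℝ] ℝ :=
  LinearMap.mkContinuous
    { toFun := fun φ => ∫ x, igr F φ x
      map_add' := fun φ ψ => by
        rw [← integral_add (igr_integrable F φ) (igr_integrable F ψ)]
        congr 1
        funext x
        unfold igr
        by_cases h : x ≠ 0
        · rw [hx_of_ne _ h, hx_of_ne _ h, hx_of_ne _ h, ContinuousMap.add_apply]
          ring
        · unfold hx
          rw [dif_neg h, dif_neg h, dif_neg h]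
          ring
      map_smul' := fun r φ => by
        rw [RingHom.id_apply, smul_eq_mul, ← integral_const_mul]
        congr 1
        funext x
        unfold igr
        by_cases h : x ≠ 0
        · rw [hx_of_ne _ h, hx_of_ne _ h, ContinuousMap.smul_apply, smul_eq_mul]
          ring
        · unfold hx
          rw [dif_neg h, dif_neg h]
          ring }
    (∫ x, |ext (U0 N) (F * res wt hwt.on).1 x|) (fun φ => by
      change ‖∫ x, igr F φ x‖ ≤ _
      rw [mul_comm, ← integral_const_mul]
      refine norm_integral_le_of_norm_le ((integrable_mul F hwt).abs.const_mul _) ?_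
      filter_upwards with x
      unfold igr
      rw [Real.norm_eq_abs, abs_mul]
      exact mul_le_mul_of_nonneg_right (hx_bound φ x) (abs_nonneg _))

theorem P_apply (F : Sm (U0 N)) (φ : C(Sp N, ℝ)) : P F φ = ∫ x, igr F φ x := rfl

/-- Exponentials on the sphere. -/
noncomputable def ea (a : E N) : C(Sp N, ℝ) :=
  ⟨fun x => Real.exp ⟪a, x.1⟫, by fun_prop⟩

theorem P_ea (F : Sm (U0 N)) (h : ∀ a m, T hwt (F * G a m) = 0) (a : E N) : P F (ea a) = 0 := by
  rw [P_apply]
  set f : ℕ → E N → ℝ := fun m x => ((m.factorial : ℝ)⁻¹) *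
    ext (U0 N) (F * G a m * res wt hwt.on).1 x with hf
  have hint : ∀ m, Integrable (f m) := fun m => (integrable_mul (F * G a m) hwt).const_mul _
  have hGb : ∀ m x, |ext (U0 N) (G a m).1 x| ≤ ‖a‖ ^ m := by
    intro m x
    by_cases hx : x ∈ U0 N
    · rw [ext_of_mem _ hx, G_apply, abs_pow]
      refine pow_le_pow_left₀ (abs_nonneg _) ?_ m
      rw [abs_mul, abs_inv, abs_norm]
      have h1 := abs_real_inner_le_norm a x
      have h2 : 0 < ‖x‖ := norm_pos_iff.mpr hx
      rw [← div_eq_mul_inv, div_le_iff₀ h2]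
      exact h1
    · unfold ext
      rw [dif_neg hx, abs_zero]
      positivity
  have hbound : ∀ m x, ‖f m x‖ ≤ ((m.factorial : ℝ)⁻¹ * ‖a‖ ^ m) *
      |ext (U0 N) (F * res wt hwt.on).1 x| := by
    intro m x
    have e1 : F * G a m * res wt hwt.on = G a m * (F * res wt hwt.on) := by ring
    rw [hf]
    simp only
    rw [e1, ext_mul, Real.norm_eq_abs, abs_mul, abs_mul, abs_inv, Nat.abs_cast, mul_assoc]
    refine mul_le_mul_of_nonneg_left ?_ (by positivity)
    exact mul_le_mul_of_nonneg_right (hGb m x) (abs_nonneg _)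
  have hsum : Summable fun m => ∫ x, ‖f m x‖ := by
    refine Summable.of_nonneg_of_le (fun m => integral_nonneg fun x => norm_nonneg _)
      (fun m => ?_)
      (((Real.summable_pow_div_factorial ‖a‖).mul_right
        (∫ x, |ext (U0 N) (F * res wt hwt.on).1 x|)))
    calc ∫ x, ‖f m x‖ ≤ ∫ x, ((m.factorial : ℝ)⁻¹ * ‖a‖ ^ m) *
          |ext (U0 N) (F * res wt hwt.on).1 x| :=
        integral_mono (hint m).norm ((integrable_mul F hwt).abs.const_mul _) (hbound m)
      _ = _ := by
        rw [integral_const_mul, div_eq_mul_inv, mul_comm (‖a‖ ^ m)]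
  have h1 := hasSum_integral_of_summable_integral_norm hint hsum
  have h2 : ∀ m, ∫ x, f m x = 0 := by
    intro m
    rw [hf]
    simp only
    rw [integral_const_mul, ← T_apply hwt, h a m, mul_zero]
  simp only [h2] at h1
  have h3 : ∀ x, ∑' m, f m x = igr F (ea a) x := by
    intro x
    by_cases hx0 : x ∈ U0 N
    · have h4 : HasSum (fun m => f m x)
          (Real.exp (⟪a, x⟫ * ‖x‖⁻¹) * ext (U0 N) (F * res wt hwt.on).1 x) := by
        have h5 : HasSum (fun m => ((m.factorial : ℝ)⁻¹) * (⟪a, x⟫ * ‖x‖⁻¹) ^ m)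
            (Real.exp (⟪a, x⟫ * ‖x‖⁻¹)) := by
          have := NormedSpace.expSeries_div_hasSum_exp (𝔸 := ℝ) (⟪a, x⟫ * ‖x‖⁻¹)
          rw [← Real.exp_eq_exp_ℝ] at this
          refine this.congr_fun ?_
          intro m
          rw [div_eq_mul_inv, mul_comm]
        have h6 := h5.mul_right (ext (U0 N) (F * res wt hwt.on).1 x)
        refine h6.congr_fun ?_
        intro m
        have e1 : F * G a m * res wt hwt.on = G a m * (F * res wt hwt.on) := by ring
        rw [hf]
        simp only
        rw [e1, ext_mul, ext_of_mem (G a m).1 hx0, G_apply]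
        ring
      rw [h4.tsum_eq]
      unfold igr
      rw [hx_of_ne _ hx0]
      congr 1
      change _ = Real.exp ⟪a, ‖x‖⁻¹ • x⟫
      rw [inner_smul_right, mul_comm]
    · have h4 : ∀ m, f m x = 0 := by
        intro m
        rw [hf]
        simp only
        unfold ext
        rw [dif_neg hx0, mul_zero]
      simp only [h4, tsum_zero]
      unfold igr
      have h5 : ext (U0 N) (F * res wt hwt.on).1 x = 0 := dif_neg hx0
      rw [h5, mul_zero]
  simp only [h3] at h1
  exact h1.unique hasSum_zero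

/-- The exponentials as a monoid homomorphism. -/
noncomputable def eaHom : Multiplicative (E N) →* C(Sp N, ℝ) where
  toFun a := ea a.toAdd
  map_one' := by
    ext x
    change Real.exp ⟪(0 : E N), x.1⟫ = 1
    rw [inner_zero_left, Real.exp_zero]
  map_mul' a b := by
    ext x
    change Real.exp ⟪a.toAdd + b.toAdd, x.1⟫ = Real.exp ⟪a.toAdd, x.1⟫ * Real.exp ⟪b.toAdd, x.1⟫
    rw [inner_add_left, Real.exp_add]

theorem P_zero (F : Sm (U0 N)) (h : ∀ a m, T hwt (F * G a m) = 0) (φ : C(Sp N, ℝ)) :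
    P F φ = 0 := by
  set A : Subalgebra ℝ C(Sp N, ℝ) := Algebra.adjoin ℝ (Set.range (eaHom (N := N))) with hA
  have hsep : A.SeparatesPoints := by
    intro x y hxy
    refine ⟨_, ⟨ea (x.1 - y.1), ?_, rfl⟩, ?_⟩
    · exact Algebra.subset_adjoin ⟨Multiplicative.ofAdd (x.1 - y.1), rfl⟩
    · intro he
      have h1 : Real.exp ⟪x.1 - y.1, x.1⟫ = Real.exp ⟪x.1 - y.1, y.1⟫ := he
      rw [Real.exp_eq_exp] at h1
      have h2 : ⟪x.1 - y.1, x.1 - y.1⟫ = (0 : ℝ) := by
        rw [inner_sub_right, h1, sub_self]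
      rw [inner_self_eq_zero, sub_eq_zero] at h2
      exact hxy (Subtype.ext h2)
  have hdense := ContinuousMap.subalgebra_topologicalClosure_eq_top_of_separatesPoints A hsep
  have hzero : ∀ φ ∈ A, P F φ = 0 := by
    intro φ hφ
    have h1 : φ ∈ Subalgebra.toSubmodule A := hφ
    rw [hA, Algebra.adjoin_eq_span] at h1
    have h2 : (Submonoid.closure (Set.range (eaHom (N := N))) : Set C(Sp N, ℝ)) =
        Set.range (eaHom (N := N)) := by
      rw [← MonoidHom.coe_mrange, Submonoid.closure_eq]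
    rw [h2] at h1
    clear hφ
    induction h1 using Submodule.span_induction with
    | mem x hx =>
      obtain ⟨a, rfl⟩ := hx
      exact P_ea F h a.toAdd
    | zero => exact map_zero _
    | add x y _ _ hx hy => rw [map_add, hx, hy, add_zero]
    | smul r x _ hx => rw [map_smul, hx, smul_zero]
  have hmem : φ ∈ A.topologicalClosure := by
    rw [hdense]
    exact Algebra.mem_top
  have hcl : IsClosed {φ : C(Sp N, ℝ) | P F φ = 0} :=
    isClosed_singleton.preimage (P F).continuous
  exact closure_minimal (fun φ hφ => hzero φ hφ) hcl hmem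

/-- A zero-homogeneous function with vanishing moments vanishes. -/
theorem eq_zero_of_moments {F : Sm (U0 N)}
    (hom : ∀ (c : ℝ) (x : E N), 0 < c → ext (U0 N) F.1 (c • x) = ext (U0 N) F.1 x)
    (h : ∀ a m, T hwt (F * G a m) = 0) : F = 0 := by
  have hcont : Continuous fun x : Sp N => ext (U0 N) F.1 x.1 := by
    have h1 : ContinuousOn (ext (U0 N) F.1) (U0 N) := (smooth F).continuousOn
    refine h1.comp_continuous continuous_subtype_val fun x => ?_
    intro h0
    have h2 := x.2
    rw [mem_sphere_zero_iff_norm] at h2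
    rw [Set.mem_singleton_iff.mp h0, norm_zero] at h2
    exact zero_ne_one h2
  have h1 := P_zero F h ⟨_, hcont⟩
  rw [P_apply] at h1
  have h2 : igr F ⟨_, hcont⟩ = fun x => (ext (U0 N) F.1 x) ^ 2 * wt x := by
    funext x
    unfold igr
    by_cases hx0 : x ∈ U0 N
    · rw [hx_of_ne _ hx0, ext_mul, ext_of_mem (res wt hwt.on).1 hx0, res_apply]
      have h3 : ext (U0 N) F.1 (‖x‖⁻¹ • x) = ext (U0 N) F.1 x :=
        hom _ _ (inv_pos.mpr (norm_pos_iff.mpr hx0))
      change ext (U0 N) F.1 (‖x‖⁻¹ • x) * _ = _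
      rw [h3]
      ring
    · have h5 : ext (U0 N) (F * res wt hwt.on).1 x = 0 := dif_neg hx0
      have h6 : ext (U0 N) F.1 x = 0 := dif_neg hx0
      rw [h5, h6]
      ring
  have hnn : ∀ x : E N, 0 ≤ (ext (U0 N) F.1 x) ^ 2 * wt x := fun x =>
    mul_nonneg (sq_nonneg _) psi.nonneg
  have hc2 : Continuous fun x => (ext (U0 N) F.1 x) ^ 2 * wt x := by
    have h3 : (fun x => (ext (U0 N) F.1 x) ^ 2 * wt x) =
        ext (U0 N) (F * F * res wt hwt.on).1 := by
      funext x
      by_cases hx0 : x ∈ U0 N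
      · rw [ext_mul, ext_mul, ext_of_mem (res wt hwt.on).1 hx0, res_apply]
        ring
      · unfold ext
        rw [dif_neg hx0, dif_neg hx0]
        ring
    rw [h3]
    exact (contDiff_mul (F * F) hwt).continuous
  have hI : Integrable fun x => (ext (U0 N) F.1 x) ^ 2 * wt x := by
    rw [← h2]
    exact igr_integrable F _
  rw [h2] at h1
  have h3 := (integral_eq_zero_iff_of_nonneg hnn hI).mp h1
  have h4 : (fun x => (ext (U0 N) F.1 x) ^ 2 * wt x) = fun _ => 0 :=
    Continuous.ae_eq_iff_eq volume hc2 continuous_const |>.mp h3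
  apply Sm_ext
  intro q
  have hq : q.1 ≠ 0 := ne0 q
  have h5 := congrFun h4 (‖q.1‖⁻¹ • q.1)
  rw [hom _ _ (inv_pos.mpr (norm_pos_iff.mpr hq))] at h5
  have h6 : wt (‖q.1‖⁻¹ • q.1) = 1 := by
    unfold wt
    have : ‖‖q.1‖⁻¹ • q.1‖ = 1 := by
      rw [norm_smul, norm_inv, norm_norm, inv_mul_cancel₀ (norm_ne_zero_iff.mpr hq)]
    rw [this, one_pow]
    exact psi.one_of_mem_closedBall (Metric.mem_closedBall_self psi.rIn_pos.le)
  rw [h6, mul_one, ext_coe] at h5
  exact pow_eq_zero_iff (two_ne_zero) |>.mp h5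

end Pool.Agent.Q185.SphH
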