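import Pool.Agent.Q185.SphH.Base

set_option autoImplicit false
set_option linter.unusedSimpArgs false

/-! # Green's identity for zero-homogeneous functions -/

namespace Pool.Agent.Q185.SphH

open Pool.Agent.Q185.DV
open scoped ContDiff RealInnerProductSpace
open MeasureTheory

variable {N : ℕ}

/-- A smooth function with compact support away from the origin. -/
structure Wt (w : E N → ℝ) : Prop where
  smooth : ContDiff ℝ ∞ w
  supp : HasCompactSupport w
  away : (0 : E N) ∉ tsupport w

theorem Wt.on {w : E N → ℝ} (hw : Wt w) : ContDiffOn ℝ ∞ w (U0 N) := hw.smooth.contDiffOn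

theorem ext_mul (f g : Sm (U0 N)) (x : E N) :
    ext (U0 N) (f * g).1 x = ext (U0 N) f.1 x * ext (U0 N) g.1 x := by
  by_cases hx : x ∈ U0 N
  · rw [ext_of_mem _ hx, ext_of_mem _ hx, ext_of_mem _ hx]
    rfl
  · unfold ext
    rw [dif_neg hx, dif_neg hx, dif_neg hx, zero_mul]

theorem ext_zero_of (f : Sm (U0 N)) {w : E N → ℝ} (hw : Wt w) {x : E N} (hx : x ∉ tsupport w) :
    ext (U0 N) (f * res w hw.on).1 x = 0 := by
  have h0 : w x = 0 := by
    by_contra h
    exact hx (subset_tsupport w h)
  rw [ext_mul]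
  have h1 : ext (U0 N) (res w hw.on).1 x = 0 := by
    by_cases hx : x ∈ U0 N
    · rw [ext_of_mem _ hx, res_apply]; exact h0
    · unfold ext
      rw [dif_neg hx]
  rw [h1, mul_zero]

theorem contDiff_mul (f : Sm (U0 N)) {w : E N → ℝ} (hw : Wt w) :
    ContDiff ℝ ∞ (ext (U0 N) (f * res w hw.on).1) := by
  rw [contDiff_iff_contDiffAt]
  intro x
  by_cases hx : x ∈ U0 N
  · exact (smooth (f * res w hw.on)).contDiffAt ((U0 N).isOpen.mem_nhds hx)
  · have hx0 : x = 0 := by
      by_contra h
      exact hx h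
    subst hx0
    have h : ext (U0 N) (f * res w hw.on).1 =ᶠ[nhds 0] fun _ => 0 := by
      filter_upwards [(isClosed_tsupport w).isOpen_compl.mem_nhds hw.away] with y hy
      exact ext_zero_of f hw hy
    exact contDiffAt_const.congr_of_eventuallyEq h

theorem supp_mul (f : Sm (U0 N)) {w : E N → ℝ} (hw : Wt w) :
    HasCompactSupport (ext (U0 N) (f * res w hw.on).1) := by
  refine HasCompactSupport.intro (K := tsupport w) hw.supp fun x hx => ext_zero_of f hw hx

theorem integrable_mul (f : Sm (U0 N)) {w : E N → ℝ} (hw : Wt w) :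
    Integrable (ext (U0 N) (f * res w hw.on).1) :=
  (contDiff_mul f hw).continuous.integrable_of_hasCompactSupport (supp_mul f hw)

theorem fderiv_mul_eq (f : Sm (U0 N)) {w : E N → ℝ} (hw : Wt w) (v x : E N) :
    fderiv ℝ (ext (U0 N) (f * res w hw.on).1) x v =
      ext (U0 N) (D v (f * res w hw.on)).1 x := by
  by_cases hx : x ∈ U0 N
  · rw [ext_of_mem _ hx, D_apply]
  · have hx0 : x = 0 := by
      by_contra h
      exact hx h
    have h : ext (U0 N) (f * res w hw.on).1 =ᶠ[nhds x] fun _ => 0 := by
      rw [hx0]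
      filter_upwards [(isClosed_tsupport w).isOpen_compl.mem_nhds hw.away] with y hy
      exact ext_zero_of f hw hy
    rw [h.fderiv_eq, fderiv_const_apply]
    unfold ext
    rw [dif_neg hx]
    rfl

theorem integrable_D (f : Sm (U0 N)) {w : E N → ℝ} (hw : Wt w) (v : E N) :
    Integrable (ext (U0 N) (D v (f * res w hw.on)).1) := by
  have h1 : Continuous fun x => fderiv ℝ (ext (U0 N) (f * res w hw.on).1) x v :=
    ((contDiff_mul f hw).continuous_fderiv (by simp)).clm_apply continuous_const
  have h2 : HasCompactSupport fun x => fderiv ℝ (ext (U0 N) (f * res w hw.on).1) x v :=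
    ((supp_mul f hw).fderiv ℝ).comp_left (g := fun L : E N →L[ℝ] ℝ => L v) rfl
  have h3 := h1.integrable_of_hasCompactSupport (μ := volume) h2
  have h4 : (fun x => fderiv ℝ (ext (U0 N) (f * res w hw.on).1) x v) =
      ext (U0 N) (D v (f * res w hw.on)).1 := funext (fderiv_mul_eq f hw v)
  rwa [h4] at h3

theorem integral_D (f : Sm (U0 N)) {w : E N → ℝ} (hw : Wt w) (v : E N) :
    ∫ x, ext (U0 N) (D v (f * res w hw.on)).1 x = 0 := by
  have h4 : (fun x => fderiv ℝ (ext (U0 N) (f * res w hw.on).1) x v) =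
      ext (U0 N) (D v (f * res w hw.on)).1 := funext (fderiv_mul_eq f hw v)
  have h1 := integral_mul_fderiv_eq_neg_fderiv_mul_of_integrable (μ := (volume : Measure (E N)))
    (f := fun _ => (1 : ℝ)) (g := ext (U0 N) (f * res w hw.on).1) (v := v)
    (by simp) (by
      simp only [one_mul]
      rw [h4]
      exact integrable_D f hw v) (by
      simp only [one_mul]
      exact integrable_mul f hw) (fun x _ => differentiableAt_const _)
    (fun x _ => (contDiff_mul f hw).differentiable (by simp) x)
  simp only [one_mul] at h1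
  rw [h4] at h1
  rw [h1]
  simp

theorem ext_add (f g : Sm (U0 N)) (x : E N) :
    ext (U0 N) (f + g).1 x = ext (U0 N) f.1 x + ext (U0 N) g.1 x := by
  by_cases hx : x ∈ U0 N
  · rw [ext_of_mem _ hx, ext_of_mem _ hx, ext_of_mem _ hx]
    rfl
  · unfold ext
    rw [dif_neg hx, dif_neg hx, dif_neg hx, zero_add]

theorem ext_smul (r : ℝ) (g : Sm (U0 N)) (x : E N) :
    ext (U0 N) (r • g).1 x = r * ext (U0 N) g.1 x := by
  by_cases hx : x ∈ U0 N
  · rw [ext_of_mem _ hx, ext_of_mem _ hx]
    rfl
  · unfold ext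
    rw [dif_neg hx, dif_neg hx, mul_zero]

/-- Integration against a weight. -/
noncomputable def T {w : E N → ℝ} (hw : Wt w) : Sm (U0 N) →ₗ[ℝ] ℝ where
  toFun f := ∫ x, ext (U0 N) (f * res w hw.on).1 x
  map_add' f g := by
    rw [add_mul]
    simp only [ext_add]
    exact integral_add (integrable_mul f hw) (integrable_mul g hw)
  map_smul' r f := by
    rw [smul_mul_assoc]
    simp only [ext_smul, RingHom.id_apply, smul_eq_mul]
    exact integral_const_mul r _

theorem T_apply {w : E N → ℝ} (hw : Wt w) (f : Sm (U0 N)) :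
    T hw f = ∫ x, ext (U0 N) (f * res w hw.on).1 x := rfl

/-- Green's identity. -/
theorem green {f g : Sm (U0 N)} (hf : Eu f = 0) (hg : Eu g = 0) {w : E N → ℝ} (hw : Wt w)
    (w' : Sm (U0 N)) (hw' : ∀ v, D v (res w hw.on) = ell v * w') :
    T hw (f * Lap g) = T hw (g * Lap f) := by
  have h1 : ∑ k : Fin N, D (sb k) ((f * D (sb k) g - g * D (sb k) f) * res w hw.on) =
      (f * Lap g - g * Lap f) * res w hw.on := by
    have h2 : ∀ k : Fin N, D (sb k) ((f * D (sb k) g - g * D (sb k) f) * res w hw.on) =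
        (f * D (sb k) (D (sb k) g) - g * D (sb k) (D (sb k) f)) * res w hw.on +
          (f * (ell (sb k) * D (sb k) g) - g * (ell (sb k) * D (sb k) f)) * w' := by
      intro k
      simp only [D_mul, D_sub, hw']
      ring
    simp only [h2, Finset.sum_add_distrib, ← Finset.sum_mul, Finset.sum_sub_distrib,
      ← Finset.mul_sum]
    change (f * Lap g - g * Lap f) * res w hw.on + (f * Eu g - g * Eu f) * w' = _
    rw [hf, hg]
    ring
  have h3 : T hw (f * Lap g - g * Lap f) = 0 := by
    rw [T_apply, ← h1]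
    have h4 : ∀ x, ext (U0 N) (∑ k : Fin N,
        D (sb k) ((f * D (sb k) g - g * D (sb k) f) * res w hw.on)).1 x =
        ∑ k : Fin N, ext (U0 N)
          (D (sb k) ((f * D (sb k) g - g * D (sb k) f) * res w hw.on)).1 x := by
      intro x
      by_cases hx : x ∈ U0 N
      · rw [ext_of_mem _ hx, sm_sum_apply]
        refine Finset.sum_congr rfl fun k _ => ?_
        rw [ext_of_mem _ hx]
      · unfold ext
        simp only [dif_neg hx, Finset.sum_const_zero]
    simp only [h4]
    rw [integral_finsetSum _ fun k _ => integrable_D _ hw _]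
    exact Finset.sum_eq_zero fun k _ => integral_D _ hw _
  rw [map_sub] at h3
  linarith

end Pool.Agent.Q185.SphH
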