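import Pool.Agent.Q185.SphH.Green

set_option autoImplicit false
set_option linter.unusedSimpArgs false

/-! # The recursion for the moments of an eigenfunction -/

namespace Pool.Agent.Q185.SphH

open Pool.Agent.Q185.DV
open scoped ContDiff RealInnerProductSpace
open MeasureTheory

variable {N : ℕ}

/-- The profile of the weight. -/
noncomputable def psi : ContDiffBump (1 : ℝ) := ⟨1 / 4, 1 / 2, by norm_num, by norm_num⟩

theorem radial {g : ℝ → ℝ} (hg : ContDiff ℝ ∞ g) (hs : tsupport g ⊆ Metric.closedBall 1 (1 / 2)) :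
    Wt (N := N) (fun x => g (‖x‖ ^ 2)) := by
  have hq : ContDiff ℝ ∞ fun x : E N => ‖x‖ ^ 2 := contDiff_norm_sq ℝ
  have hsub : tsupport (fun x : E N => g (‖x‖ ^ 2)) ⊆
      (fun x : E N => ‖x‖ ^ 2) ⁻¹' Metric.closedBall 1 (1 / 2) := by
    refine closure_minimal ?_ (Metric.isClosed_closedBall.preimage hq.continuous)
    intro x hx
    exact hs (subset_tsupport g hx)
  refine ⟨hg.comp hq, ?_, ?_⟩
  · refine HasCompactSupport.of_support_subset_isCompact (isCompact_closedBall (0 : E N) 2) ?_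
    intro x hx
    have h1 := hsub (subset_tsupport _ hx)
    rw [Set.mem_preimage, Metric.mem_closedBall, Real.dist_eq, abs_le] at h1
    rw [mem_closedBall_zero_iff]
    nlinarith [norm_nonneg x]
  · intro h
    have h1 := hsub h
    rw [Set.mem_preimage, Metric.mem_closedBall, Real.dist_eq, abs_le] at h1
    simp at h1
    norm_num at h1

theorem D_radial {g : ℝ → ℝ} (hg : ContDiff ℝ ∞ g)
    (hs : tsupport g ⊆ Metric.closedBall 1 (1 / 2)) :
    ∃ w' : Sm (U0 N), ∀ v, D v (res (fun x : E N => g (‖x‖ ^ 2)) (radial hg hs).on) =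
      ell v * w' := by
  have hq : ContDiff ℝ ∞ fun x : E N => ‖x‖ ^ 2 := contDiff_norm_sq ℝ
  have hd : ContDiff ℝ ∞ fun x : E N => 2 * deriv g (‖x‖ ^ 2) :=
    contDiff_const.mul (((contDiff_infty_iff_deriv.mp hg).2).comp hq)
  refine ⟨res (fun x : E N => 2 * deriv g (‖x‖ ^ 2)) hd.contDiffOn, fun v => ?_⟩
  apply Sm_ext
  intro q
  rw [D_res]
  have h1 : HasFDerivAt (fun x : E N => ‖x‖ ^ 2) (2 • (innerSL ℝ q.1)) q.1 :=
    (hasStrictFDerivAt_norm_sq q.1).hasFDerivAt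
  have h2 : HasDerivAt g (deriv g (‖q.1‖ ^ 2)) (‖q.1‖ ^ 2) :=
    (hg.differentiable (by simp) _).hasDerivAt
  have h3 : fderiv ℝ (fun x : E N => g (‖x‖ ^ 2)) q.1 =
      deriv g (‖q.1‖ ^ 2) • (2 • (innerSL ℝ q.1)) := (h2.comp_hasFDerivAt q.1 h1).fderiv
  rw [h3]
  change deriv g (‖q.1‖ ^ 2) * ((2 : ℕ) • ⟪q.1, v⟫) = ⟪v, q.1⟫ * (2 * deriv g (‖q.1‖ ^ 2))
  rw [real_inner_comm, nsmul_eq_mul]
  push_cast
  ring

theorem tsupp_psi : tsupport psi ⊆ Metric.closedBall 1 (1 / 2) := by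
  rw [psi.tsupport_eq]
  rfl

theorem psi2_smooth : ContDiff ℝ ∞ fun s : ℝ => s * psi s := contDiff_id.mul psi.contDiff

theorem tsupp_psi2 : tsupport (fun s : ℝ => s * psi s) ⊆ Metric.closedBall 1 (1 / 2) :=
  (closure_mono (Function.support_mul_subset_right _ _)).trans tsupp_psi

/-- The weight. -/
noncomputable def wt (x : E N) : ℝ := psi (‖x‖ ^ 2)

theorem hwt : Wt (wt : E N → ℝ) := radial psi.contDiff tsupp_psi

theorem hwt2 : Wt (N := N) (fun x : E N => ‖x‖ ^ 2 * psi (‖x‖ ^ 2)) :=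
  radial psi2_smooth tsupp_psi2

theorem res_wt2 : (res (fun x : E N => ‖x‖ ^ 2 * psi (‖x‖ ^ 2)) hwt2.on : Sm (U0 N)) =
    r2 * res wt hwt.on := by
  apply Sm_ext
  intro q
  change ‖q.1‖ ^ 2 * psi (‖q.1‖ ^ 2) = (r2 : Sm (U0 N)).1 q * psi (‖q.1‖ ^ 2)
  rw [r2_apply]

theorem T2_eq (f : Sm (U0 N)) : T hwt2 f = T hwt (r2 * f) := by
  rw [T_apply, T_apply, res_wt2, ← mul_assoc, mul_comm f r2]

theorem green2 {f g : Sm (U0 N)} (hf : Eu f = 0) (hg : Eu g = 0) :
    T hwt (f * (r2 * Lap g)) = T hwt (g * (r2 * Lap f)) := by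
  obtain ⟨w', hw'⟩ := D_radial (N := N) psi2_smooth tsupp_psi2
  have h := green hf hg hwt2 w' hw'
  rw [T2_eq, T2_eq] at h
  have e1 : f * (r2 * Lap g) = r2 * (f * Lap g) := by ring
  have e2 : g * (r2 * Lap f) = r2 * (g * Lap f) := by ring
  rw [e1, e2, h]

/-- A zero-homogeneous eigenfunction. -/
structure Eig (F : Sm (U0 N)) (nu : ℝ) : Prop where
  euler : Eu F = 0
  eq : r2 * Lap F = -(cst nu * F)

theorem cst_mul_eq (c : ℝ) (f : Sm (U0 N)) : cst c * f = c • f := (Algebra.smul_def c f).symm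

theorem moment_step {F : Sm (U0 N)} {nu : ℝ} (h : Eig F nu) (a : E N) (m : ℕ) :
    (((m : ℝ) + 2) * (m + N) - nu) * T hwt (F * G a (m + 2)) =
      ((m : ℝ) + 2) * (m + 1) * ‖a‖ ^ 2 * T hwt (F * G a m) := by
  have h1 := green2 h.euler (Eu_G a (m + 2))
  rw [Lap_G, h.eq] at h1
  have e1 : F * (((m : Sm (U0 N)) + 2) * ((m : Sm (U0 N)) + 1) * cst (‖a‖ ^ 2) * G a m -
      ((m : Sm (U0 N)) + 2) * ((m : Sm (U0 N)) + (N : Sm (U0 N))) * G a (m + 2)) =
      (((m : ℝ) + 2) * (m + 1) * ‖a‖ ^ 2) • (F * G a m) -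
        (((m : ℝ) + 2) * (m + N)) • (F * G a (m + 2)) := by
    rw [← cst_mul_eq, ← cst_mul_eq]
    have e2 : (cst (((m : ℝ) + 2) * (m + 1) * ‖a‖ ^ 2) : Sm (U0 N)) =
        ((m : Sm (U0 N)) + 2) * ((m : Sm (U0 N)) + 1) * cst (‖a‖ ^ 2) := by
      simp only [cst, map_mul, map_add, map_natCast, map_one, map_ofNat]
    have e3 : (cst (((m : ℝ) + 2) * (m + N)) : Sm (U0 N)) =
        ((m : Sm (U0 N)) + 2) * ((m : Sm (U0 N)) + (N : Sm (U0 N))) := by
      simp only [cst, map_mul, map_add, map_natCast, map_one, map_ofNat]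
    rw [e2, e3]
    ring
  have e4 : G a (m + 2) * -(cst nu * F) = (-nu) • (F * G a (m + 2)) := by
    rw [← cst_mul_eq]
    simp only [cst, map_neg]
    ring
  rw [e1, e4, map_sub, map_smul, map_smul, map_smul, smul_eq_mul, smul_eq_mul, smul_eq_mul] at h1
  linear_combination -h1

theorem moment_zero {F : Sm (U0 N)} {nu : ℝ} (h : Eig F nu) : nu * T hwt F = 0 := by
  have h1 := green2 h.euler (g := (1 : Sm (U0 N))) (by
    unfold Eu
    simp)
  have h2 : Lap (1 : Sm (U0 N)) = 0 := by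
    unfold Lap
    simp
  rw [h2, h.eq] at h1
  have e4 : (1 : Sm (U0 N)) * -(cst nu * F) = (-nu) • F := by
    rw [← cst_mul_eq]
    simp only [cst, map_neg]
    ring
  rw [e4, map_smul, mul_zero, mul_zero, map_zero, smul_eq_mul] at h1
  linarith

/-- Even functions have vanishing odd moments. -/
theorem moment_odd {F : Sm (U0 N)} (he : ∀ x, ext (U0 N) F.1 (-x) = ext (U0 N) F.1 x) (a : E N)
    (m : ℕ) : T hwt (F * G a (2 * m + 1)) = 0 := by
  have hG : ∀ x, ext (U0 N) (G a (2 * m + 1)).1 (-x) = -ext (U0 N) (G a (2 * m + 1)).1 x := by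
    intro x
    by_cases hx : x ∈ U0 N
    · have hx' : -x ∈ U0 N := by
        rw [mem_U0] at hx ⊢
        simpa using hx
      rw [ext_of_mem _ hx, ext_of_mem _ hx', G_apply, G_apply]
      simp only [inner_neg_right, norm_neg, neg_mul]
      exact Odd.neg_pow ⟨m, rfl⟩ _
    · have hx' : -x ∉ U0 N := by
        rw [mem_U0] at hx ⊢
        simpa using hx
      unfold ext
      rw [dif_neg hx, dif_neg hx', neg_zero]
  have hw : ∀ x, ext (U0 N) (res wt hwt.on).1 (-x) = ext (U0 N) (res wt hwt.on : Sm (U0 N)).1 x := by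
    intro x
    by_cases hx : x ∈ U0 N
    · have hx' : -x ∈ U0 N := by
        rw [mem_U0] at hx ⊢
        simpa using hx
      rw [ext_of_mem _ hx, ext_of_mem _ hx', res_apply, res_apply]
      unfold wt
      simp only [norm_neg]
    · have hx' : -x ∉ U0 N := by
        rw [mem_U0] at hx ⊢
        simpa using hx
      unfold ext
      rw [dif_neg hx, dif_neg hx']
  have h1 : T hwt (F * G a (2 * m + 1)) = -T hwt (F * G a (2 * m + 1)) := by
    conv_lhs => rw [T_apply, ← integral_neg_eq_self]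
    rw [T_apply, ← integral_neg]
    congr 1
    funext x
    rw [ext_mul, ext_mul, ext_mul, ext_mul, he, hG, hw]
    ring
  linarith

end Pool.Agent.Q185.SphH
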